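import Mathlib

/-!
# Flat Chebyshev metrics with merely continuous angle

We construct by convex integration a `C¹` map `f : ℝ² → ℝ²` with `|f_u| = |f_v| = 1` whose
continuous angle function is not locally of the form `g(u) + h(v)`.
-/

open Set Filter Topology
open scoped Real ContDiff

namespace Pool.Agent.Results.MP_65e1c6_gt.NotAdditive

/-- the parameter plane -/
abbrev E := ℝ × ℝ

/-- doubly periodic -/
def Per {F : Type*} (g : E → F) : Prop :=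
  (∀ x, g (x + (2 * π, 0)) = g x) ∧ ∀ x, g (x + (0, 2 * π)) = g x

theorem Per.fderiv {F : Type*} [NormedAddCommGroup F] [NormedSpace ℝ F] {g : E → F} (h : Per g) :
    Per (fderiv ℝ g) := by
  constructor
  · intro x
    rw [← fderiv_comp_add_right]
    congr 1
    funext y
    exact h.1 y
  · intro x
    rw [← fderiv_comp_add_right]
    congr 1
    funext y
    exact h.2 y

theorem Per.bound {F : Type*} [NormedAddCommGroup F] {g : E → F} (h : Per g)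
    (hc : Continuous g) : ∃ C, 0 ≤ C ∧ ∀ x, ‖g x‖ ≤ C := by
  have hK : IsCompact (Icc (0 : ℝ) (2 * π) ×ˢ Icc (0 : ℝ) (2 * π)) :=
    isCompact_Icc.prod isCompact_Icc
  obtain ⟨C, hC⟩ := hK.exists_bound_of_continuousOn hc.continuousOn
  have hC' : ∀ x, ‖g x‖ ≤ C := by
    rintro ⟨u, v⟩
    have h1 : Function.Periodic (fun u => g (u, v)) (2 * π) := by
      intro u
      have := h.1 (u, v)
      simpa using this
    obtain ⟨u', hu', h2⟩ := h1.exists_mem_Ico₀ Real.two_pi_pos u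
    have h3 : Function.Periodic (fun v => g (u', v)) (2 * π) := by
      intro v
      have := h.2 (u', v)
      simpa using this
    obtain ⟨v', hv', h4⟩ := h3.exists_mem_Ico₀ Real.two_pi_pos v
    rw [h2, h4]
    exact hC _ ⟨⟨hu'.1, hu'.2.le⟩, ⟨hv'.1, hv'.2.le⟩⟩
  exact ⟨C, (norm_nonneg _).trans (hC' 0), hC'⟩

/-- the corrugation -/
noncomputable def corr (l : E →L[ℝ] ℝ) (G H : E → ℂ) (L : ℝ) (x : E) : ℂ :=
  Real.cos (L * l x) • G x + Real.sin (2 * (L * l x)) • H x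

theorem corr_hasFDerivAt (l : E →L[ℝ] ℝ) {G H : E → ℂ} (hG : Differentiable ℝ G)
    (hH : Differentiable ℝ H) (L : ℝ) (x : E) :
    HasFDerivAt (corr l G H L)
      (Real.cos (L * l x) • fderiv ℝ G x + ((-Real.sin (L * l x)) • (L • l)).smulRight (G x) +
        (Real.sin (2 * (L * l x)) • fderiv ℝ H x +
          (Real.cos (2 * (L * l x)) • ((2 : ℝ) • (L • l))).smulRight (H x))) x := by
  have h1 : HasFDerivAt (fun x : E => L * l x) (L • l) x := (l.hasFDerivAt).const_mul L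
  exact (h1.cos.smul (hG x).hasFDerivAt).add ((h1.const_mul 2).sin.smul (hH x).hasFDerivAt)

theorem corr_per {l : E →L[ℝ] ℝ} (hl1 : ∃ n : ℕ, l (2 * π, 0) = n * (2 * π))
    (hl2 : ∃ n : ℕ, l (0, 2 * π) = n * (2 * π)) {G H : E → ℂ} (hG : Per G) (hH : Per H) (N : ℕ) :
    Per (corr l G H N) := by
  obtain ⟨n, hn⟩ := hl1
  obtain ⟨m, hm⟩ := hl2
  constructor
  · intro x
    unfold corr
    rw [hG.1, hH.1, map_add, hn]
    have e1 : (N : ℝ) * (l x + n * (2 * π)) = N * l x + (N * n : ℕ) * (2 * π) := by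
      push_cast; ring
    have e2 : 2 * (N * l x + (N * n : ℕ) * (2 * π)) =
        2 * (N * l x) + (2 * (N * n) : ℕ) * (2 * π) := by
      push_cast; ring
    rw [e1, e2, Real.cos_add_nat_mul_two_pi, Real.sin_add_nat_mul_two_pi]
  · intro x
    unfold corr
    rw [hG.2, hH.2, map_add, hm]
    have e1 : (N : ℝ) * (l x + m * (2 * π)) = N * l x + (N * m : ℕ) * (2 * π) := by
      push_cast; ring
    have e2 : 2 * (N * l x + (N * m : ℕ) * (2 * π)) =
        2 * (N * l x) + (2 * (N * m) : ℕ) * (2 * π) := by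
      push_cast; ring
    rw [e1, e2, Real.cos_add_nat_mul_two_pi, Real.sin_add_nat_mul_two_pi]

theorem corr_smooth {l : E →L[ℝ] ℝ} {G H : E → ℂ} (hG : ContDiff ℝ ∞ G) (hH : ContDiff ℝ ∞ H)
    (L : ℝ) : ContDiff ℝ ∞ (corr l G H L) := by
  unfold corr
  have h1 : ContDiff ℝ ∞ fun x : E => L * l x := contDiff_const.mul l.contDiff
  exact (h1.cos.smul hG).add ((contDiff_const.mul h1).sin.smul hH)

/-- the squared length of the corrugated derivative -/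
theorem normSq_corr (w : ℂ) (s t : ℝ) :
    ‖w * (1 + ((s ^ 2 * Real.cos (2 * t) : ℝ) : ℂ) + ((2 * s * Real.sin t : ℝ) : ℂ) * Complex.I)‖ ^ 2
      = ‖w‖ ^ 2 * (1 + 2 * s ^ 2 + s ^ 4 * Real.cos (2 * t) ^ 2) := by
  rw [norm_mul, mul_pow]
  congr 1
  rw [← Complex.normSq_eq_norm_sq, Complex.normSq_apply]
  simp only [Complex.add_re, Complex.one_re, Complex.ofReal_re, Complex.mul_re, Complex.I_re,
    Complex.ofReal_im, Complex.I_im, Complex.add_im, Complex.one_im, Complex.mul_im]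
  have h1 : Real.cos (2 * t) = 1 - 2 * Real.sin t ^ 2 := by
    rw [Real.cos_two_mul, Real.cos_sq']; ring
  rw [h1]
  ring

theorem exists_corr {l : E →L[ℝ] ℝ} {e1 e2 : E} (h1 : l e1 = 1) (h2 : l e2 = 0)
    (hl1 : ∃ n : ℕ, l (2 * π, 0) = n * (2 * π)) (hl2 : ∃ n : ℕ, l (0, 2 * π) = n * (2 * π))
    {f G H : E → ℂ} (hf : ContDiff ℝ ∞ f) (hG : ContDiff ℝ ∞ G) (hH : ContDiff ℝ ∞ H)
    (pf : Per (fderiv ℝ f)) (pG : Per G) (pH : Per H) {η : ℝ} (hη : 0 < η) :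
    ∃ (N : ℕ) (g : E → ℂ), ContDiff ℝ ∞ g ∧ Per (fderiv ℝ g) ∧
      (∀ x, ‖fderiv ℝ g x e1 - (fderiv ℝ f x e1 - Real.sin (N * l x) • G x +
        (2 * Real.cos (2 * (N * l x))) • H x)‖ ≤ η) ∧
      (∀ x, ‖fderiv ℝ g x e2 - fderiv ℝ f x e2‖ ≤ η) ∧ ∀ x, ‖g x - f x‖ ≤ η := by
  obtain ⟨C1, hC1, hC1'⟩ := pG.bound hG.continuous
  obtain ⟨C2, hC2, hC2'⟩ := pH.bound hH.continuous
  obtain ⟨C3, hC3, hC3'⟩ := pG.fderiv.bound (hG.continuous_fderiv (by simp))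
  obtain ⟨C4, hC4, hC4'⟩ := pH.fderiv.bound (hH.continuous_fderiv (by simp))
  obtain ⟨C, hC⟩ : ∃ C, C = C1 + C2 + (C3 + C4) * (‖e1‖ + ‖e2‖) := ⟨_, rfl⟩
  have hCnn : 0 ≤ C := by rw [hC]; positivity
  obtain ⟨N, hN⟩ := exists_nat_gt (C / η)
  have hN0 : (0 : ℝ) < N := lt_of_le_of_lt (by positivity) hN
  have hCN : (1 / (N : ℝ)) * C ≤ η := by
    rw [div_lt_iff₀ hη] at hN
    rw [one_div, inv_mul_le_iff₀ hN0]
    exact hN.le
  have hsum : ∀ (a b : ℝ) (z z' : ℂ) (c c' : ℝ), |a| ≤ 1 → |b| ≤ 1 → ‖z‖ ≤ c → ‖z'‖ ≤ c' →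
      c + c' ≤ C → ‖(1 / (N : ℝ)) • (a • z + b • z')‖ ≤ η := by
    intro a b z z' c c' ha hb hz hz' hc
    rw [norm_smul, Real.norm_eq_abs, abs_of_pos (by positivity)]
    refine le_trans (mul_le_mul_of_nonneg_left ?_ (by positivity)) hCN
    refine (norm_add_le _ _).trans (le_trans (add_le_add ?_ ?_) hc)
    · rw [norm_smul, Real.norm_eq_abs]
      calc |a| * ‖z‖ ≤ 1 * ‖z‖ := mul_le_mul_of_nonneg_right ha (norm_nonneg _)
        _ ≤ c := by rw [one_mul]; exact hz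
    · rw [norm_smul, Real.norm_eq_abs]
      calc |b| * ‖z'‖ ≤ 1 * ‖z'‖ := mul_le_mul_of_nonneg_right hb (norm_nonneg _)
        _ ≤ c' := by rw [one_mul]; exact hz'
  have hGd : Differentiable ℝ G := hG.differentiable (by simp)
  have hHd : Differentiable ℝ H := hH.differentiable (by simp)
  have hfd : Differentiable ℝ f := hf.differentiable (by simp)
  have hder : ∀ x, HasFDerivAt (fun x => f x + (1 / (N : ℝ)) • corr l G H N x) _ x := fun x =>
    (hfd x).hasFDerivAt.add ((corr_hasFDerivAt l hGd hHd N x).const_smul (1 / (N : ℝ)))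
  have hle : ∀ (e : E) (x : E), ‖fderiv ℝ G x e‖ ≤ C3 * ‖e‖ := fun e x =>
    (ContinuousLinearMap.le_opNorm _ _).trans (mul_le_mul_of_nonneg_right (hC3' x) (norm_nonneg _))
  have hle' : ∀ (e : E) (x : E), ‖fderiv ℝ H x e‖ ≤ C4 * ‖e‖ := fun e x =>
    (ContinuousLinearMap.le_opNorm _ _).trans (mul_le_mul_of_nonneg_right (hC4' x) (norm_nonneg _))
  have n1 : 0 ≤ ‖e1‖ := norm_nonneg _
  have n2 : 0 ≤ ‖e2‖ := norm_nonneg _
  refine ⟨N, fun x => f x + (1 / (N : ℝ)) • corr l G H N x,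
    hf.add ((corr_smooth hG hH N).const_smul _), ?_, ?_, ?_, ?_⟩
  · have hP : Per (fderiv ℝ (fun x => (1 / (N : ℝ)) • corr l G H N x)) := by
      have h3 := corr_per hl1 hl2 pG pH N
      exact Per.fderiv ⟨fun x => by simp only [h3.1 x], fun x => by simp only [h3.2 x]⟩
    have hsplit : ∀ x, fderiv ℝ (fun x => f x + (1 / (N : ℝ)) • corr l G H N x) x =
        fderiv ℝ f x + fderiv ℝ (fun x => (1 / (N : ℝ)) • corr l G H N x) x := fun x =>
      fderiv_fun_add (hfd x) ((corr_hasFDerivAt l hGd hHd N x).const_smul (1 / (N : ℝ))).differentiableAt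
    exact ⟨fun x => by rw [hsplit, hsplit, pf.1, hP.1], fun x => by rw [hsplit, hsplit, pf.2, hP.2]⟩
  · intro x
    rw [(hder x).fderiv]
    have h3 : (fderiv ℝ f x + (1 / (N : ℝ)) • (Real.cos (N * l x) • fderiv ℝ G x +
        ((-Real.sin (N * l x)) • ((N : ℝ) • l)).smulRight (G x) +
        (Real.sin (2 * (N * l x)) • fderiv ℝ H x +
          (Real.cos (2 * (N * l x)) • ((2 : ℝ) • ((N : ℝ) • l))).smulRight (H x)))) e1 -
        (fderiv ℝ f x e1 - Real.sin (N * l x) • G x + (2 * Real.cos (2 * (N * l x))) • H x) =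
        (1 / (N : ℝ)) • (Real.cos (N * l x) • fderiv ℝ G x e1 +
          Real.sin (2 * (N * l x)) • fderiv ℝ H x e1) := by
      simp only [add_apply, smul_apply,
        ContinuousLinearMap.smulRight_apply, h1, smul_eq_mul, mul_one, smul_add, smul_smul]
      have e1' : 1 / (N : ℝ) * (-Real.sin (N * l x) * N) = -Real.sin (N * l x) := by
        field_simp
      have e2' : 1 / (N : ℝ) * (Real.cos (2 * (N * l x)) * (2 * N)) =
          2 * Real.cos (2 * (N * l x)) := by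
        field_simp
      rw [e1', e2', neg_smul]
      abel
    rw [h3]
    refine hsum _ _ _ _ _ _ (Real.abs_cos_le_one _) (Real.abs_sin_le_one _) (hle e1 x)
      (hle' e1 x) ?_
    rw [hC]
    nlinarith
  · intro x
    rw [(hder x).fderiv]
    have h3 : (fderiv ℝ f x + (1 / (N : ℝ)) • (Real.cos (N * l x) • fderiv ℝ G x +
        ((-Real.sin (N * l x)) • ((N : ℝ) • l)).smulRight (G x) +
        (Real.sin (2 * (N * l x)) • fderiv ℝ H x +
          (Real.cos (2 * (N * l x)) • ((2 : ℝ) • ((N : ℝ) • l))).smulRight (H x)))) e2 -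
        fderiv ℝ f x e2 =
        (1 / (N : ℝ)) • (Real.cos (N * l x) • fderiv ℝ G x e2 +
          Real.sin (2 * (N * l x)) • fderiv ℝ H x e2) := by
      simp only [add_apply, smul_apply,
        ContinuousLinearMap.smulRight_apply, h2, smul_eq_mul, mul_zero, zero_smul, add_zero]
      abel
    rw [h3]
    refine hsum _ _ _ _ _ _ (Real.abs_cos_le_one _) (Real.abs_sin_le_one _) (hle e2 x)
      (hle' e2 x) ?_
    rw [hC]
    nlinarith
  · intro x
    simp only [add_sub_cancel_left]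
    unfold corr
    refine hsum _ _ _ _ _ _ (Real.abs_cos_le_one _) (Real.abs_sin_le_one _) (hC1' x)
      (hC2' x) ?_
    rw [hC]
    have : 0 ≤ (C3 + C4) * (‖e1‖ + ‖e2‖) := by positivity
    linarith

/-- one half-step of the construction -/
theorem half_step {l : E →L[ℝ] ℝ} {e1 e2 : E} (h1 : l e1 = 1) (h2 : l e2 = 0)
    (hl1 : ∃ n : ℕ, l (2 * π, 0) = n * (2 * π)) (hl2 : ∃ n : ℕ, l (0, 2 * π) = n * (2 * π))
    {f : E → ℂ} (hf : ContDiff ℝ ∞ f) (pf : Per (fderiv ℝ f)) {δ : ℝ} (hδ : 0 < δ)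
    (hδ' : δ ≤ 1 / 64) (hw : ∀ x, |‖fderiv ℝ f x e1‖ ^ 2 - (1 - δ)| ≤ δ / 4) {η : ℝ}
    (hη : 0 < η) (hη1 : η ≤ 1) :
    ∃ g : E → ℂ, ContDiff ℝ ∞ g ∧ Per (fderiv ℝ g) ∧
      (∀ x, |‖fderiv ℝ g x e1‖ ^ 2 - (1 - δ / 4)| ≤ δ ^ 2 + 5 * η) ∧
      (∀ x, ‖fderiv ℝ g x e1 - fderiv ℝ f x e1‖ ≤ 2 * √δ + δ + η) ∧
      (∀ x, ‖fderiv ℝ g x e2 - fderiv ℝ f x e2‖ ≤ η) ∧ ∀ x, ‖g x - f x‖ ≤ η := by
  have hwlo : ∀ x, 1 / 2 ≤ ‖fderiv ℝ f x e1‖ ^ 2 := fun x => by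
    have := abs_le.1 (hw x)
    linarith [this.1]
  have hwup : ∀ x, ‖fderiv ℝ f x e1‖ ^ 2 ≤ 1 - 3 * δ / 4 := fun x => by
    have := abs_le.1 (hw x)
    linarith [this.2]
  have hwlo' : ∀ x, 1 - 5 * δ / 4 ≤ ‖fderiv ℝ f x e1‖ ^ 2 := fun x => by
    have := abs_le.1 (hw x)
    linarith [this.1]
  have hWc : ContDiff ℝ ∞ fun x => fderiv ℝ f x e1 :=
    (hf.fderiv_right (m := ∞) (by simp)).clm_apply contDiff_const
  have hNc : ContDiff ℝ ∞ fun x => ‖fderiv ℝ f x e1‖ ^ 2 := hWc.norm_sq ℝ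
  obtain ⟨K, hK⟩ : ∃ K : E → ℝ, K = fun x => ((1 - δ / 4) / ‖fderiv ℝ f x e1‖ ^ 2 - 1) / 2 :=
    ⟨_, rfl⟩
  have hK' : ∀ x, ‖fderiv ℝ f x e1‖ ^ 2 * (1 + 2 * K x) = 1 - δ / 4 := by
    intro x
    rw [hK]
    have h3 : ‖fderiv ℝ f x e1‖ ^ 2 ≠ 0 := (by linarith [hwlo x] : 0 < ‖fderiv ℝ f x e1‖ ^ 2).ne'
    have h4 : 1 + 2 * (((1 - δ / 4) / ‖fderiv ℝ f x e1‖ ^ 2 - 1) / 2) =
        (1 - δ / 4) / ‖fderiv ℝ f x e1‖ ^ 2 := by ring
    simp only [h4]
    exact mul_div_cancel₀ _ h3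
  have hKpos : ∀ x, 0 < K x := by
    intro x
    have h3 := hK' x
    have h4 := hwlo x
    have h5 := hwup x
    by_contra hcon
    push Not at hcon
    nlinarith
  have hKle : ∀ x, K x ≤ δ := by
    intro x
    have h3 := hK' x
    have h4 := hwlo x
    have h5 := hwlo' x
    by_contra hcon
    push Not at hcon
    nlinarith
  have hKc : ContDiff ℝ ∞ K := by
    rw [hK]
    exact ((contDiff_const.div hNc fun x => by have := hwlo x; positivity).sub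
      contDiff_const).div_const 2
  have hsc : ContDiff ℝ ∞ fun x => √(K x) := hKc.sqrt fun x => (hKpos x).ne'
  have hKper : Per K := by
    rw [hK]
    exact ⟨fun x => by simp only [pf.1 x], fun x => by simp only [pf.2 x]⟩
  obtain ⟨N, g, g1, g2, g3, g4, g5⟩ := exists_corr h1 h2 hl1 hl2 hf
    (G := fun x => (-2 * √(K x)) • (Complex.I * fderiv ℝ f x e1))
    (H := fun x => (K x / 2) • fderiv ℝ f x e1)
    ((contDiff_const.mul hsc).smul (contDiff_const.mul hWc)) ((hKc.div_const 2).smul hWc) pf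
    ⟨fun x => by simp only [hKper.1 x, pf.1 x], fun x => by simp only [hKper.2 x, pf.2 x]⟩
    ⟨fun x => by simp only [hKper.1 x, pf.1 x], fun x => by simp only [hKper.2 x, pf.2 x]⟩ hη
  have hW : ∀ x, fderiv ℝ f x e1 - Real.sin (N * l x) • ((-2 * √(K x)) •
      (Complex.I * fderiv ℝ f x e1)) + (2 * Real.cos (2 * (N * l x))) • ((K x / 2) •
      fderiv ℝ f x e1) = fderiv ℝ f x e1 * (1 + ((√(K x) ^ 2 * Real.cos (2 * (N * l x)) : ℝ) : ℂ) +
      ((2 * √(K x) * Real.sin (N * l x) : ℝ) : ℂ) * Complex.I) := by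
    intro x
    rw [Real.sq_sqrt (hKpos x).le]
    simp only [Complex.real_smul]
    push_cast
    ring
  have hWn : ∀ x, ‖fderiv ℝ f x e1‖ ≤ 1 := by
    intro x
    have h3 := hwup x
    have h4 := norm_nonneg (fderiv ℝ f x e1)
    nlinarith
  have hs0 : ∀ x, 0 ≤ √(K x) := fun x => Real.sqrt_nonneg _
  have hsle : ∀ x, √(K x) ≤ √δ := fun x => Real.sqrt_le_sqrt (hKle x)
  have hKd : ∀ x, K x * K x ≤ δ * δ := fun x =>
    mul_self_le_mul_self (hKpos x).le (hKle x)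
  refine ⟨g, g1, g2, ?_, ?_, g4, g5⟩
  · intro x
    have h3 := g3 x
    rw [hW] at h3
    obtain ⟨W, hWdef⟩ : ∃ W, W = fderiv ℝ f x e1 * (1 + ((√(K x) ^ 2 *
      Real.cos (2 * (N * l x)) : ℝ) : ℂ) + ((2 * √(K x) * Real.sin (N * l x) : ℝ) : ℂ) *
      Complex.I) := ⟨_, rfl⟩
    rw [← hWdef] at h3
    have h4 : ‖W‖ ^ 2 = ‖fderiv ℝ f x e1‖ ^ 2 * (1 + 2 * K x + K x ^ 2 *
        Real.cos (2 * (N * l x)) ^ 2) := by
      rw [hWdef, normSq_corr]
      have h5 : √(K x) ^ 2 = K x := Real.sq_sqrt (hKpos x).le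
      have h6 : √(K x) ^ 4 = K x ^ 2 := by
        calc √(K x) ^ 4 = (√(K x) ^ 2) ^ 2 := by ring
          _ = K x ^ 2 := by rw [h5]
      rw [h5, h6]
    have h5 : ‖W‖ ^ 2 - (1 - δ / 4) = ‖fderiv ℝ f x e1‖ ^ 2 * (K x ^ 2 *
        Real.cos (2 * (N * l x)) ^ 2) := by
      rw [h4, ← hK' x]; ring
    have h6 : Real.cos (2 * (N * l x)) ^ 2 ≤ 1 := Real.cos_sq_le_one _
    have h7 : 0 ≤ Real.cos (2 * (N * l x)) ^ 2 := sq_nonneg _
    have h8 : ‖fderiv ℝ f x e1‖ ^ 2 ≤ 1 := by linarith [hwup x]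
    have h9 : 0 ≤ ‖W‖ ^ 2 - (1 - δ / 4) := by rw [h5]; positivity
    have h10 : ‖W‖ ^ 2 - (1 - δ / 4) ≤ δ ^ 2 := by
      rw [h5]
      calc _ ≤ 1 * (K x ^ 2 * 1) := by gcongr
        _ ≤ δ ^ 2 := by nlinarith [hKd x]
    have h11 : ‖W‖ ≤ 2 := by
      have := norm_nonneg W
      nlinarith
    have h12 : |‖fderiv ℝ g x e1‖ - ‖W‖| ≤ η := (abs_norm_sub_norm_le _ _).trans h3
    have h13 : |‖fderiv ℝ g x e1‖ ^ 2 - ‖W‖ ^ 2| ≤ 5 * η := by
      have h14 : ‖fderiv ℝ g x e1‖ ^ 2 - ‖W‖ ^ 2 =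
          (‖fderiv ℝ g x e1‖ - ‖W‖) * (‖fderiv ℝ g x e1‖ + ‖W‖) := by ring
      rw [h14, abs_mul]
      have h15 := norm_nonneg (fderiv ℝ g x e1)
      have h16 := norm_nonneg W
      have h17 : |‖fderiv ℝ g x e1‖ + ‖W‖| ≤ 5 := by
        rw [abs_of_nonneg (by positivity)]
        have := abs_le.1 h12
        linarith [this.2]
      calc _ ≤ η * 5 := mul_le_mul h12 h17 (abs_nonneg _) hη.le
        _ = 5 * η := by ring
    have h18 := abs_le.1 h13
    rw [abs_le]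
    constructor
    · nlinarith [h18.1, sq_nonneg δ]
    · linarith [h18.2]
  · intro x
    have h3 := g3 x
    rw [hW] at h3
    have h4 : ‖fderiv ℝ f x e1 * (1 + ((√(K x) ^ 2 *
      Real.cos (2 * (N * l x)) : ℝ) : ℂ) + ((2 * √(K x) * Real.sin (N * l x) : ℝ) : ℂ) *
      Complex.I) - fderiv ℝ f x e1‖ ≤ 2 * √δ + δ := by
      have h5 : fderiv ℝ f x e1 * (1 + ((√(K x) ^ 2 *
        Real.cos (2 * (N * l x)) : ℝ) : ℂ) + ((2 * √(K x) * Real.sin (N * l x) : ℝ) : ℂ) *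
        Complex.I) - fderiv ℝ f x e1 = fderiv ℝ f x e1 * (((√(K x) ^ 2 *
        Real.cos (2 * (N * l x)) : ℝ) : ℂ) + ((2 * √(K x) * Real.sin (N * l x) : ℝ) : ℂ) *
        Complex.I) := by ring
      rw [h5, norm_mul]
      have h6 : ‖((√(K x) ^ 2 * Real.cos (2 * (N * l x)) : ℝ) : ℂ)‖ ≤ δ := by
        rw [Complex.norm_real, Real.norm_eq_abs, abs_mul, Real.sq_sqrt (hKpos x).le,
          abs_of_pos (hKpos x)]
        calc K x * |Real.cos (2 * (N * l x))| ≤ K x * 1 :=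
              mul_le_mul_of_nonneg_left (Real.abs_cos_le_one _) (hKpos x).le
          _ ≤ δ := by linarith [hKle x]
      have h7 : ‖((2 * √(K x) * Real.sin (N * l x) : ℝ) : ℂ) * Complex.I‖ ≤ 2 * √δ := by
        rw [norm_mul, Complex.norm_I, mul_one, Complex.norm_real, Real.norm_eq_abs, abs_mul,
          abs_of_nonneg (by positivity)]
        calc 2 * √(K x) * |Real.sin (N * l x)| ≤ 2 * √(K x) * 1 :=
              mul_le_mul_of_nonneg_left (Real.abs_sin_le_one _) (by positivity)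
          _ ≤ 2 * √δ := by linarith [hsle x]
      calc _ ≤ 1 * (δ + 2 * √δ) := by
            refine mul_le_mul (hWn x) ((norm_add_le _ _).trans (add_le_add h6 h7))
              (norm_nonneg _) zero_le_one
        _ = 2 * √δ + δ := by ring
    calc _ = ‖(fderiv ℝ g x e1 - fderiv ℝ f x e1 * (1 + ((√(K x) ^ 2 *
        Real.cos (2 * (N * l x)) : ℝ) : ℂ) + ((2 * √(K x) * Real.sin (N * l x) : ℝ) : ℂ) *
        Complex.I)) + (fderiv ℝ f x e1 * (1 + ((√(K x) ^ 2 *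
        Real.cos (2 * (N * l x)) : ℝ) : ℂ) + ((2 * √(K x) * Real.sin (N * l x) : ℝ) : ℂ) *
        Complex.I) - fderiv ℝ f x e1)‖ := by congr 1; ring
      _ ≤ η + (2 * √δ + δ) := (norm_add_le _ _).trans (add_le_add h3 h4)
      _ = _ := by ring

theorem sq_pert {a b : ℂ} {η : ℝ} (h : ‖a - b‖ ≤ η) (hb : ‖b‖ ≤ 2) (hη : 0 ≤ η) (hη1 : η ≤ 1) :
    |‖a‖ ^ 2 - ‖b‖ ^ 2| ≤ 5 * η := by
  have h12 : |‖a‖ - ‖b‖| ≤ η := (abs_norm_sub_norm_le _ _).trans h
  have h14 : ‖a‖ ^ 2 - ‖b‖ ^ 2 = (‖a‖ - ‖b‖) * (‖a‖ + ‖b‖) := by ring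
  rw [h14, abs_mul]
  have h15 := norm_nonneg a
  have h16 := norm_nonneg b
  have h17 : |‖a‖ + ‖b‖| ≤ 5 := by
    rw [abs_of_nonneg (by positivity)]
    have := abs_le.1 h12
    linarith [this.2]
  calc _ ≤ η * 5 := mul_le_mul h12 h17 (abs_nonneg _) hη
    _ = 5 * η := by ring

/-- the maps of the iteration -/
structure Good (δ : ℝ) (f : E → ℂ) : Prop where
  smooth : ContDiff ℝ ∞ f
  per : Per (fderiv ℝ f)
  u : ∀ x, |‖fderiv ℝ f x (1, 0)‖ ^ 2 - (1 - δ)| ≤ δ / 8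
  v : ∀ x, |‖fderiv ℝ f x (0, 1)‖ ^ 2 - (1 - δ)| ≤ δ / 8

theorem step {δ : ℝ} (hδ : 0 < δ) (hδ' : δ ≤ 1 / 64) {f : E → ℂ} (hf : Good δ f) :
    ∃ g, Good (δ / 4) g ∧ (∀ x, ‖fderiv ℝ g x (1, 0) - fderiv ℝ f x (1, 0)‖ ≤ 3 * √δ) ∧
      (∀ x, ‖fderiv ℝ g x (0, 1) - fderiv ℝ f x (0, 1)‖ ≤ 3 * √δ) ∧ ∀ x, ‖g x - f x‖ ≤ √δ := by
  obtain ⟨η, hη⟩ : ∃ η, η = δ / 640 := ⟨_, rfl⟩
  have hη0 : 0 < η := by rw [hη]; positivity
  have hη1 : η ≤ 1 := by rw [hη]; linarith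
  have hs : √δ * √δ = δ := Real.mul_self_sqrt hδ.le
  have hs0 : 0 < √δ := Real.sqrt_pos.2 hδ
  have hs1 : √δ ≤ 1 / 8 := by
    by_contra hcon
    push Not at hcon
    nlinarith
  have hdd : δ ^ 2 ≤ δ / 64 := by nlinarith
  have hds : δ ≤ √δ / 8 := by nlinarith
  obtain ⟨f1, a1, a2, a3, a4, a5, a6⟩ := half_step (l := ContinuousLinearMap.fst ℝ ℝ ℝ)
    (e1 := (1, 0)) (e2 := (0, 1)) rfl rfl ⟨1, by simp⟩ ⟨0, by simp⟩ hf.smooth hf.per hδ hδ'
    (fun x => (hf.u x).trans (by linarith)) hη0 hη1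
  have hb : ∀ x, ‖fderiv ℝ f x (0, 1)‖ ≤ 2 := by
    intro x
    have h1 := abs_le.1 (hf.v x)
    have h2 := norm_nonneg (fderiv ℝ f x (0, 1))
    nlinarith [h1.2]
  have hv1 : ∀ x, |‖fderiv ℝ f1 x (0, 1)‖ ^ 2 - (1 - δ)| ≤ δ / 4 := by
    intro x
    have h1 := abs_le.1 (sq_pert (a5 x) (hb x) hη0.le hη1)
    have h2 := abs_le.1 (hf.v x)
    rw [abs_le]
    constructor <;> linarith [h1.1, h1.2, h2.1, h2.2]
  obtain ⟨f2, b1, b2, b3, b4, b5, b6⟩ := half_step (l := ContinuousLinearMap.snd ℝ ℝ ℝ)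
    (e1 := (0, 1)) (e2 := (1, 0)) rfl rfl ⟨0, by simp⟩ ⟨1, by simp⟩ a1 a2 hδ hδ' hv1 hη0 hη1
  have hb' : ∀ x, ‖fderiv ℝ f1 x (1, 0)‖ ≤ 2 := by
    intro x
    have h1 := abs_le.1 (a3 x)
    have h2 := norm_nonneg (fderiv ℝ f1 x (1, 0))
    nlinarith [h1.2]
  refine ⟨f2, ⟨b1, b2, ?_, ?_⟩, ?_, ?_, ?_⟩
  · intro x
    have h1 := abs_le.1 (sq_pert (b5 x) (hb' x) hη0.le hη1)
    have h2 := abs_le.1 (a3 x)
    rw [abs_le]
    constructor <;> linarith [h1.1, h1.2, h2.1, h2.2]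
  · intro x
    have h2 := abs_le.1 (b3 x)
    rw [abs_le]
    constructor <;> linarith [h2.1, h2.2]
  · intro x
    have h1 : fderiv ℝ f2 x (1, 0) - fderiv ℝ f x (1, 0) =
      (fderiv ℝ f2 x (1, 0) - fderiv ℝ f1 x (1, 0)) +
      (fderiv ℝ f1 x (1, 0) - fderiv ℝ f x (1, 0)) := by ring
    rw [h1]
    refine (norm_add_le _ _).trans ?_
    linarith [b5 x, a4 x]
  · intro x
    have h1 : fderiv ℝ f2 x (0, 1) - fderiv ℝ f x (0, 1) =
      (fderiv ℝ f2 x (0, 1) - fderiv ℝ f1 x (0, 1)) +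
      (fderiv ℝ f1 x (0, 1) - fderiv ℝ f x (0, 1)) := by ring
    rw [h1]
    refine (norm_add_le _ _).trans ?_
    linarith [b4 x, a5 x]
  · intro x
    have h1 : f2 x - f x = (f2 x - f1 x) + (f1 x - f x) := by ring
    rw [h1]
    refine (norm_add_le _ _).trans ?_
    linarith [b6 x, a6 x]

theorem opNorm_le (L : E →L[ℝ] ℂ) : ‖L‖ ≤ ‖L (1, 0)‖ + ‖L (0, 1)‖ := by
  refine L.opNorm_le_bound (by positivity) fun x => ?_
  have h1 : x = x.1 • ((1 : ℝ), (0 : ℝ)) + x.2 • ((0 : ℝ), (1 : ℝ)) := by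
    ext <;> simp
  have h2 : L x = x.1 • L (1, 0) + x.2 • L (0, 1) := by
    conv_lhs => rw [h1]
    rw [map_add, map_smul, map_smul]
  rw [h2]
  have h3 : ‖x.1‖ ≤ ‖x‖ := norm_fst_le x
  have h4 : ‖x.2‖ ≤ ‖x‖ := norm_snd_le x
  calc _ ≤ ‖x.1 • L (1, 0)‖ + ‖x.2 • L (0, 1)‖ := norm_add_le _ _
    _ = ‖x.1‖ * ‖L (1, 0)‖ + ‖x.2‖ * ‖L (0, 1)‖ := by rw [norm_smul, norm_smul]
    _ ≤ ‖x‖ * ‖L (1, 0)‖ + ‖x‖ * ‖L (0, 1)‖ := by gcongr
    _ = _ := by ring

/-- the limit of the iteration -/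
theorem exists_limit {δ : ℝ} (hδ : 0 < δ) (hδ' : δ ≤ 1 / 64) {f : E → ℂ} (hf : Good δ f) :
    ∃ g : E → ℂ, ContDiff ℝ 1 g ∧ (∀ x, ‖fderiv ℝ g x (1, 0)‖ = 1) ∧
      (∀ x, ‖fderiv ℝ g x (0, 1)‖ = 1) ∧
      ∀ x, ‖fderiv ℝ g x - fderiv ℝ f x‖ ≤ 12 * √δ := by
  have hstep : ∀ q : ℕ, ∀ f : {f : E → ℂ // Good (δ / 4 ^ q) f},
      ∃ g : {g : E → ℂ // Good (δ / 4 ^ (q + 1)) g},
        (∀ x, ‖fderiv ℝ g.1 x (1, 0) - fderiv ℝ f.1 x (1, 0)‖ ≤ 3 * √δ / 2 ^ q) ∧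
        (∀ x, ‖fderiv ℝ g.1 x (0, 1) - fderiv ℝ f.1 x (0, 1)‖ ≤ 3 * √δ / 2 ^ q) ∧
        ∀ x, ‖g.1 x - f.1 x‖ ≤ √δ / 2 ^ q := by
    intro q f
    have h4 : (1 : ℝ) ≤ 4 ^ q := one_le_pow₀ (by norm_num)
    obtain ⟨g, g1, g2, g3, g4⟩ := step (δ := δ / 4 ^ q) (by positivity)
      ((div_le_self hδ.le h4).trans hδ') f.2
    have h5 : √(δ / 4 ^ q) = √δ / 2 ^ q := by
      rw [Real.sqrt_div hδ.le]
      congr 1
      have : (4 : ℝ) ^ q = (2 ^ q) ^ 2 := by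
        rw [← pow_mul, mul_comm, pow_mul]; norm_num
      rw [this, Real.sqrt_sq (by positivity)]
    rw [h5] at g2 g3 g4
    refine ⟨⟨g, ?_⟩, ?_, ?_, g4⟩
    · have : δ / 4 ^ q / 4 = δ / 4 ^ (q + 1) := by rw [pow_succ]; field_simp
      rw [← this]; exact g1
    · intro x; rw [mul_div_assoc]; exact g2 x
    · intro x; rw [mul_div_assoc]; exact g3 x
  choose nxt n1 n2 n3 using hstep
  obtain ⟨F, hF0, hFs⟩ : ∃ F : (q : ℕ) → {f : E → ℂ // Good (δ / 4 ^ q) f},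
      (F 0).1 = f ∧ ∀ q, F (q + 1) = nxt q (F q) :=
    ⟨fun q => Nat.rec (⟨f, by simpa using hf⟩ : {f : E → ℂ // Good (δ / 4 ^ 0) f})
      (fun q f => nxt q f) q, rfl, fun q => rfl⟩
  have hd : ∀ x q, dist (fderiv ℝ (F q).1 x) (fderiv ℝ (F (q + 1)).1 x) ≤
      12 * √δ / 2 / 2 ^ q := by
    intro x q
    rw [dist_comm, dist_eq_norm]
    refine (opNorm_le _).trans ?_
    rw [sub_apply, sub_apply, hFs]
    have h1 := n1 q (F q) x
    have h2 := n2 q (F q) x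
    calc _ ≤ 3 * √δ / 2 ^ q + 3 * √δ / 2 ^ q := add_le_add h1 h2
      _ = _ := by ring
  have hd' : ∀ x q, dist ((F q).1 x) ((F (q + 1)).1 x) ≤ 2 * √δ / 2 / 2 ^ q := by
    intro x q
    rw [dist_comm, dist_eq_norm, hFs]
    refine (n3 q (F q) x).trans_eq ?_
    ring
  have hlim : ∀ x, ∃ L, Tendsto (fun q => fderiv ℝ (F q).1 x) atTop (𝓝 L) := fun x =>
    cauchySeq_tendsto_of_complete (cauchySeq_of_le_geometric_two (hd x))
  have hlim' : ∀ x, ∃ z, Tendsto (fun q => (F q).1 x) atTop (𝓝 z) := fun x =>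
    cauchySeq_tendsto_of_complete (cauchySeq_of_le_geometric_two (hd' x))
  choose g' hg' using hlim
  choose g hg using hlim'
  have hunif : TendstoUniformly (fun q x => fderiv ℝ (F q).1 x) g' atTop := by
    rw [Metric.tendstoUniformly_iff]
    intro ε hε
    obtain ⟨n, hn⟩ := exists_nat_gt (12 * √δ / ε)
    filter_upwards [eventually_ge_atTop n] with q hq x
    rw [dist_comm]
    refine (dist_le_of_le_geometric_two_of_tendsto (hd x) (hg' x) q).trans_lt ?_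
    have h2q : (q : ℝ) < 2 ^ q := by exact_mod_cast Nat.lt_two_pow_self
    have hnq : (n : ℝ) ≤ q := by exact_mod_cast hq
    rw [div_lt_iff₀ hε] at hn
    rw [div_lt_iff₀ (by positivity)]
    nlinarith
  have hgd : ∀ x, HasFDerivAt g (g' x) x :=
    hasFDerivAt_of_tendstoUniformly hunif (fun q x =>
      ((F q).2.smooth.differentiable (by simp) x).hasFDerivAt) hg
  have hfd : ∀ x, fderiv ℝ g x = g' x := fun x => (hgd x).fderiv
  have hcont : Continuous g' := hunif.continuous (Frequently.of_forall fun q =>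
    (F q).2.smooth.continuous_fderiv (by simp))
  have hδ0 : Tendsto (fun q : ℕ => δ / 4 ^ q) atTop (𝓝 0) := by
    have h1 : Tendsto (fun q : ℕ => δ * (1 / 4 : ℝ) ^ q) atTop (𝓝 (δ * 0)) :=
      (tendsto_pow_atTop_nhds_zero_of_lt_one (by norm_num) (by norm_num)).const_mul δ
    rw [mul_zero] at h1
    refine h1.congr fun q => ?_
    rw [one_div, inv_pow]; rfl
  have hone : ∀ (e : E) (x : E), (∀ q, |‖fderiv ℝ (F q).1 x e‖ ^ 2 - (1 - δ / 4 ^ q)| ≤
      δ / 4 ^ q / 8) → ‖g' x e‖ = 1 := by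
    intro e x h
    have h1 : Tendsto (fun q => ‖fderiv ℝ (F q).1 x e‖ ^ 2 - (1 - δ / 4 ^ q)) atTop
        (𝓝 (‖g' x e‖ ^ 2 - (1 - 0))) := by
      refine Tendsto.sub ?_ (hδ0.const_sub 1)
      have h2 : Tendsto (fun q => fderiv ℝ (F q).1 x e) atTop (𝓝 (g' x e)) :=
        ((ContinuousLinearMap.apply ℝ ℂ e).continuous.tendsto _).comp (hg' x)
      exact h2.norm.pow 2
    have h2 : Tendsto (fun q => ‖fderiv ℝ (F q).1 x e‖ ^ 2 - (1 - δ / 4 ^ q)) atTop (𝓝 0) := by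
      refine squeeze_zero_norm (fun q => ?_) (a := fun q => δ / 4 ^ q / 8) ?_
      · rw [Real.norm_eq_abs]; exact h q
      · have := hδ0.div_const 8
        simpa using this
    have h3 := tendsto_nhds_unique h1 h2
    have h4 := norm_nonneg (g' x e)
    nlinarith
  refine ⟨g, contDiff_one_iff_hasFDerivAt.2 ⟨g', hcont, hgd⟩, ?_, ?_, ?_⟩
  · intro x
    rw [hfd]
    exact hone _ x fun q => (F q).2.u x
  · intro x
    rw [hfd]
    exact hone _ x fun q => (F q).2.v x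
  · intro x
    rw [hfd, ← hF0, ← dist_eq_norm, dist_comm]
    exact dist_le_of_le_geometric_two_of_tendsto₀ (hd x) (hg' x)

/-- a locally additive function has no mixed differences -/
theorem mixed {w : E → ℝ} (hw : ∀ p, ∃ U ∈ 𝓝 p, ∃ g h : ℝ → ℝ, ∀ x ∈ U, w x = g x.1 + h x.2)
    (u u' v v' : ℝ) : w (u, v) - w (u', v) = w (u, v') - w (u', v') := by
  obtain ⟨K, hK⟩ : ∃ K, K = uIcc v v' := ⟨_, rfl⟩
  have hKc : IsCompact K := by rw [hK]; exact isCompact_uIcc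
  have hKp : IsPreconnected K := by rw [hK]; exact isPreconnected_uIcc
  have hloc : ∀ u0, ∀ᶠ u in 𝓝 u0, ∀ v ∈ K, ∀ᶠ v' in 𝓝 v,
      w (u0, v) - w (u, v) = w (u0, v') - w (u, v') := by
    intro u0
    refine hKc.eventually_forall_of_forall_eventually fun v0 _ => ?_
    obtain ⟨U, hU, g, h, hgh⟩ := hw (u0, v0)
    rw [nhds_prod_eq, Filter.mem_prod_iff] at hU
    obtain ⟨I, hI, J, hJ, hIJ⟩ := hU
    obtain ⟨J', hJ'J, hJ'o, hv0⟩ := mem_nhds_iff.1 hJ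
    have hu0 : u0 ∈ I := mem_of_mem_nhds hI
    rw [nhds_prod_eq]
    filter_upwards [prod_mem_prod hI (hJ'o.mem_nhds hv0)] with z hz
    filter_upwards [hJ'o.mem_nhds hz.2] with v' hv'
    rw [hgh (u0, z.2) (hIJ ⟨hu0, hJ'J hz.2⟩), hgh (z.1, z.2) (hIJ ⟨hz.1, hJ'J hz.2⟩),
      hgh (u0, v') (hIJ ⟨hu0, hJ'J hv'⟩), hgh (z.1, v') (hIJ ⟨hz.1, hJ'J hv'⟩)]
    ring
  have hS : ∀ u0, ∀ᶠ u in 𝓝 u0, ∀ v1 ∈ K, ∀ v2 ∈ K,
      w (u0, v1) - w (u, v1) = w (u0, v2) - w (u, v2) := by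
    intro u0
    filter_upwards [hloc u0] with u hu v1 hv1 v2 hv2
    refine hKp.induction₂ (fun v1 v2 => w (u0, v1) - w (u, v1) = w (u0, v2) - w (u, v2))
      (fun v hv => (hu v hv).filter_mono nhdsWithin_le_nhds) ?_ ?_ hv1 hv2
    · intro a b c _ _ _ h1 h2
      exact h1.trans h2
    · intro a b _ _ h1
      exact h1.symm
  have hfin := isPreconnected_univ.induction₂ (fun a b : ℝ => ∀ v1 ∈ K, ∀ v2 ∈ K,
      w (a, v1) - w (b, v1) = w (a, v2) - w (b, v2))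
      (fun a _ => (hS a).filter_mono nhdsWithin_le_nhds) (by
        intro a b c _ _ _ h1 h2 v1 hv1 v2 hv2
        have := h1 v1 hv1 v2 hv2
        have := h2 v1 hv1 v2 hv2
        linarith) (by
        intro a b _ _ h1 v1 hv1 v2 hv2
        have := h1 v1 hv1 v2 hv2
        linarith) (mem_univ u) (mem_univ u')
  exact hfin v (by rw [hK]; exact left_mem_uIcc) v' (by rw [hK]; exact right_mem_uIcc)

/-! ### The first map -/

/-- the phase of the first corrugation -/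
noncomputable def phase (N : ℕ) (x : E) : ℝ := N * x.1 + π / 2 * Real.sin x.2

/-- the first map -/
noncomputable def first (ρ r s : ℝ) (N : ℕ) (x : E) : ℂ :=
  x.1 • (ρ : ℂ) + x.2 • ((r : ℂ) * Complex.I) +
    (Real.cos (phase N x) • ((-2 * s * ρ / N : ℝ) * Complex.I) +
      Real.sin (2 * phase N x) • ((s ^ 2 * ρ / (2 * N) : ℝ) : ℂ))

theorem phase_hasFDerivAt (N : ℕ) (x : E) : HasFDerivAt (phase N)
    ((N : ℝ) • ContinuousLinearMap.fst ℝ ℝ ℝ +
      (π / 2) • (Real.cos x.2 • ContinuousLinearMap.snd ℝ ℝ ℝ)) x := by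
  have h1 : HasFDerivAt (fun x : E => (N : ℝ) * x.1) ((N : ℝ) • ContinuousLinearMap.fst ℝ ℝ ℝ) x :=
    (hasFDerivAt_fst).const_mul (N : ℝ)
  have h2 : HasFDerivAt (fun x : E => π / 2 * Real.sin x.2)
      ((π / 2) • (Real.cos x.2 • ContinuousLinearMap.snd ℝ ℝ ℝ)) x :=
    (hasFDerivAt_snd (p := x)).sin.const_mul (π / 2)
  exact h1.add h2

theorem first_hasFDerivAt (ρ r s : ℝ) (N : ℕ) (x : E) : HasFDerivAt (first ρ r s N)
    ((ContinuousLinearMap.fst ℝ ℝ ℝ).smulRight (ρ : ℂ) +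
      (ContinuousLinearMap.snd ℝ ℝ ℝ).smulRight ((r : ℂ) * Complex.I) +
    ((-Real.sin (phase N x) • ((N : ℝ) • ContinuousLinearMap.fst ℝ ℝ ℝ +
      (π / 2) • (Real.cos x.2 • ContinuousLinearMap.snd ℝ ℝ ℝ))).smulRight
        ((-2 * s * ρ / N : ℝ) * Complex.I) +
      (Real.cos (2 * phase N x) • ((2 : ℝ) • ((N : ℝ) • ContinuousLinearMap.fst ℝ ℝ ℝ +
      (π / 2) • (Real.cos x.2 • ContinuousLinearMap.snd ℝ ℝ ℝ)))).smulRight
        ((s ^ 2 * ρ / (2 * N) : ℝ) : ℂ))) x := by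
  have h1 := phase_hasFDerivAt N x
  exact ((hasFDerivAt_fst.smul_const _).add (hasFDerivAt_snd.smul_const _)).add
    ((h1.cos.smul_const _).add ((h1.const_mul 2).sin.smul_const _))

theorem first_u (ρ r s : ℝ) {N : ℕ} (hN : 0 < N) (x : E) :
    fderiv ℝ (first ρ r s N) x (1, 0) = (ρ : ℂ) * (1 + ((s ^ 2 * Real.cos (2 * phase N x) : ℝ) : ℂ)
      + ((2 * s * Real.sin (phase N x) : ℝ) : ℂ) * Complex.I) := by
  have hN' : (N : ℂ) ≠ 0 := by exact_mod_cast hN.ne'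
  rw [(first_hasFDerivAt ρ r s N x).fderiv]
  simp only [add_apply, smul_apply, ContinuousLinearMap.smulRight_apply,
    ContinuousLinearMap.coe_fst', ContinuousLinearMap.coe_snd', smul_eq_mul, mul_one, mul_zero,
    add_zero, one_smul, zero_smul, Complex.real_smul]
  push_cast
  field_simp
  ring

theorem first_v (ρ r s : ℝ) {N : ℕ} (hN : 0 < N) (x : E) :
    fderiv ℝ (first ρ r s N) x (0, 1) - r * Complex.I = ((1 / (N : ℝ) * (π / 2 * Real.cos x.2) * ρ :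
      ℝ) : ℂ) * (((s ^ 2 * Real.cos (2 * phase N x) : ℝ) : ℂ)
      + ((2 * s * Real.sin (phase N x) : ℝ) : ℂ) * Complex.I) := by
  have hN' : (N : ℂ) ≠ 0 := by exact_mod_cast hN.ne'
  rw [(first_hasFDerivAt ρ r s N x).fderiv]
  simp only [add_apply, smul_apply, ContinuousLinearMap.smulRight_apply,
    ContinuousLinearMap.coe_fst', ContinuousLinearMap.coe_snd', smul_eq_mul, mul_one, mul_zero,
    zero_add, one_smul, zero_smul, Complex.real_smul]
  push_cast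
  field_simp
  ring

theorem phase_smooth (N : ℕ) : ContDiff ℝ ∞ (phase N) := by
  unfold phase
  fun_prop

theorem first_smooth (ρ r s : ℝ) (N : ℕ) : ContDiff ℝ ∞ (first ρ r s N) := by
  have := phase_smooth N
  unfold first
  fun_prop

theorem phase_add (N : ℕ) (x : E) : phase N (x + (2 * π, 0)) = phase N x + N * (2 * π) := by
  unfold phase
  simp only [Prod.fst_add, Prod.snd_add, add_zero]
  ring

theorem phase_add' (N : ℕ) (x : E) : phase N (x + (0, 2 * π)) = phase N x := by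
  unfold phase
  simp only [Prod.fst_add, Prod.snd_add, add_zero, Real.sin_add_two_pi]

theorem first_add (ρ r s : ℝ) (N : ℕ) (x : E) :
    first ρ r s N (x + (2 * π, 0)) = first ρ r s N x + (2 * π) • (ρ : ℂ) := by
  unfold first
  have h2 : 2 * (phase N x + N * (2 * π)) = 2 * phase N x + (2 * N : ℕ) * (2 * π) := by
    push_cast; ring
  rw [phase_add, Real.cos_add_nat_mul_two_pi, h2, Real.sin_add_nat_mul_two_pi]
  simp only [Prod.fst_add, Prod.snd_add, add_zero, add_smul]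
  ring

theorem first_add' (ρ r s : ℝ) (N : ℕ) (x : E) :
    first ρ r s N (x + (0, 2 * π)) = first ρ r s N x + (2 * π) • ((r : ℂ) * Complex.I) := by
  unfold first
  rw [phase_add']
  simp only [Prod.fst_add, Prod.snd_add, add_zero, add_smul]
  ring

theorem first_per (ρ r s : ℝ) (N : ℕ) : Per (fderiv ℝ (first ρ r s N)) := by
  constructor
  · intro x
    rw [← fderiv_comp_add_right]
    have h1 : (fun x => first ρ r s N (x + (2 * π, 0))) =
        fun x => first ρ r s N x + (2 * π) • (ρ : ℂ) := by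
      funext y; exact first_add ρ r s N y
    rw [h1, fderiv_add_const]
  · intro x
    rw [← fderiv_comp_add_right]
    have h1 : (fun x => first ρ r s N (x + (0, 2 * π))) =
        fun x => first ρ r s N x + (2 * π) • ((r : ℂ) * Complex.I) := by
      funext y; exact first_add' ρ r s N y
    rw [h1, fderiv_add_const]

/-- the first map of the iteration -/
theorem exists_first : ∃ (f : E → ℂ) (s δ c : ℝ) (N : ℕ), 0 < N ∧ 0 < s ∧ s = 1 / 1000 ∧ 0 < δ ∧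
    δ ≤ 1 / 64 ∧ √δ ≤ 3 * s ^ 2 ∧ Good δ f ∧ s ≤ c ∧ c ≤ 2 * s ∧
    (∀ x, ‖fderiv ℝ f x (1, 0)‖ ≤ 1) ∧
    ∃ r : ℝ, (∀ x, ‖fderiv ℝ f x (0, 1) - r * Complex.I‖ ≤ s ^ 2) ∧
      ∀ x, r * (fderiv ℝ f x (1, 0)).im = c * Real.sin (phase N x) := by
  obtain ⟨s, hs⟩ : ∃ s : ℝ, s = 1 / 1000 := ⟨_, rfl⟩
  obtain ⟨δ, hδ⟩ : ∃ δ : ℝ, δ = 8 * s ^ 4 := ⟨_, rfl⟩
  have hs0 : 0 < s := by rw [hs]; norm_num
  have hδ0 : 0 < δ := by rw [hδ]; positivity
  have hδ1 : δ ≤ 1 / 64 := by rw [hδ, hs]; norm_num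
  obtain ⟨ρ, hρ⟩ : ∃ ρ : ℝ, ρ = √((1 - δ) / (1 + 2 * s ^ 2)) := ⟨_, rfl⟩
  obtain ⟨r, hr⟩ : ∃ r : ℝ, r = √(1 - δ) := ⟨_, rfl⟩
  have hρ2 : ρ ^ 2 * (1 + 2 * s ^ 2) = 1 - δ := by
    rw [hρ, Real.sq_sqrt (by apply div_nonneg <;> [linarith; positivity])]
    field_simp
  have hr2 : r ^ 2 = 1 - δ := by rw [hr, Real.sq_sqrt (by linarith)]
  have hρ0 : 0 ≤ ρ := by rw [hρ]; exact Real.sqrt_nonneg _
  have hr0 : 0 ≤ r := by rw [hr]; exact Real.sqrt_nonneg _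
  have hs2 : s ^ 2 = 1 / 1000000 := by rw [hs]; norm_num
  have hδv : δ = 8 / 1000000000000 := by rw [hδ, hs]; norm_num
  have hρ1 : ρ ≤ 1 := by rw [hs2, hδv] at hρ2; nlinarith
  have hρ3 : 3 / 4 ≤ ρ := by rw [hs2, hδv] at hρ2; nlinarith
  have hr1 : r ≤ 1 := by rw [hδv] at hr2; nlinarith
  have hr3 : 3 / 4 ≤ r := by rw [hδv] at hr2; nlinarith
  obtain ⟨N, hN⟩ := exists_nat_gt (6 / (δ / 40))
  have hN0 : (0 : ℝ) < N := lt_of_le_of_lt (by positivity) hN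
  have hN0' : 0 < N := by exact_mod_cast hN0
  have hN1 : 6 / (N : ℝ) ≤ δ / 40 := by
    rw [div_lt_iff₀ (by positivity)] at hN
    rw [div_le_iff₀ hN0]
    linarith
  have hv : ∀ x, ‖fderiv ℝ (first ρ r s N) x (0, 1) - r * Complex.I‖ ≤ δ / 40 := by
    intro x
    rw [first_v ρ r s hN0' x, norm_mul, Complex.norm_real, Real.norm_eq_abs]
    have h1 : |1 / (N : ℝ) * (π / 2 * Real.cos x.2) * ρ| ≤ 2 / N := by
      rw [abs_mul, abs_mul, abs_mul, abs_of_pos (by positivity : 0 < 1 / (N : ℝ)),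
        abs_of_pos (by positivity : 0 < π / 2), abs_of_nonneg hρ0]
      have h3 : |Real.cos x.2| ≤ 1 := Real.abs_cos_le_one _
      have h4 : π / 2 ≤ 2 := by linarith [Real.pi_le_four]
      calc 1 / (N : ℝ) * (π / 2 * |Real.cos x.2|) * ρ ≤ 1 / (N : ℝ) * (2 * 1) * 1 := by gcongr
        _ = 2 / N := by ring
    have h2 : ‖((s ^ 2 * Real.cos (2 * phase N x) : ℝ) : ℂ) +
        ((2 * s * Real.sin (phase N x) : ℝ) : ℂ) * Complex.I‖ ≤ 3 := by
      refine (norm_add_le _ _).trans ?_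
      rw [norm_mul, Complex.norm_I, mul_one, Complex.norm_real, Complex.norm_real,
        Real.norm_eq_abs, Real.norm_eq_abs, abs_mul, abs_mul, abs_of_nonneg (sq_nonneg s),
        abs_of_pos (by positivity : 0 < 2 * s)]
      have h3 : |Real.cos (2 * phase N x)| ≤ 1 := Real.abs_cos_le_one _
      have h4 : |Real.sin (phase N x)| ≤ 1 := Real.abs_sin_le_one _
      calc _ ≤ s ^ 2 * 1 + 2 * s * 1 := by gcongr
        _ ≤ 3 := by rw [hs2, hs]; norm_num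
    calc _ ≤ 2 / (N : ℝ) * 3 := by gcongr
      _ = 6 / N := by ring
      _ ≤ _ := hN1
  have hun : ∀ x, ‖fderiv ℝ (first ρ r s N) x (1, 0)‖ ^ 2 =
      (1 - δ) + ρ ^ 2 * (s ^ 4 * Real.cos (2 * phase N x) ^ 2) := by
    intro x
    rw [first_u ρ r s hN0' x, normSq_corr, Complex.norm_real, Real.norm_eq_abs, sq_abs, ← hρ2]
    ring
  have hcos : ∀ x, 0 ≤ ρ ^ 2 * (s ^ 4 * Real.cos (2 * phase N x) ^ 2) ∧
      ρ ^ 2 * (s ^ 4 * Real.cos (2 * phase N x) ^ 2) ≤ δ / 8 := by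
    intro x
    refine ⟨by positivity, ?_⟩
    have h1 : Real.cos (2 * phase N x) ^ 2 ≤ 1 := Real.cos_sq_le_one _
    have h2 : ρ ^ 2 ≤ 1 := by nlinarith
    calc _ ≤ 1 * (s ^ 4 * 1) := by gcongr
      _ = δ / 8 := by rw [hδ]; ring
  refine ⟨first ρ r s N, s, δ, 2 * s * ρ * r, N, hN0', hs0, hs, hδ0, hδ1, ?_,
    ⟨first_smooth ρ r s N, first_per ρ r s N, ?_, ?_⟩, ?_, ?_, ?_, r, ?_, ?_⟩
  · rw [Real.sqrt_le_left (by positivity), hδ]
    nlinarith [pow_pos hs0 4]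
  · intro x
    rw [hun x, abs_le]
    constructor <;> linarith [(hcos x).1, (hcos x).2]
  · intro x
    have h1 : ‖(r : ℂ) * Complex.I‖ = r := by
      rw [norm_mul, Complex.norm_I, mul_one, Complex.norm_real, Real.norm_eq_abs,
        abs_of_nonneg hr0]
    have h2 := sq_pert (hv x) (by rw [h1]; linarith) (by positivity) (by linarith)
    rw [h1, hr2] at h2
    linarith
  · have h1 : 9 / 16 ≤ ρ * r := by nlinarith
    nlinarith
  · have h1 : ρ * r ≤ 1 := by nlinarith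
    nlinarith
  · intro x
    have h1 := hun x
    have h2 := (hcos x).2
    have h3 := norm_nonneg (fderiv ℝ (first ρ r s N) x (1, 0))
    nlinarith
  · intro x
    refine (hv x).trans ?_
    rw [hs2, hδv]
    norm_num
  · intro x
    rw [first_u ρ r s hN0' x]
    simp only [Complex.mul_im, Complex.ofReal_re, Complex.ofReal_im, Complex.add_im,
      Complex.one_im, Complex.mul_re, Complex.I_re, Complex.I_im, Complex.add_re, Complex.one_re]
    ring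

theorem arcsin_sub_of_nonneg {y : ℝ} (hy0 : 0 ≤ y) (hy : y ≤ 1 / 2) :
    |Real.arcsin y - y| ≤ 2 * y ^ 3 := by
  obtain ⟨t, ht⟩ : ∃ t, t = Real.arcsin y := ⟨_, rfl⟩
  have ht0 : 0 ≤ t := by rw [ht]; exact Real.arcsin_nonneg.2 hy0
  have ht1 : t ≤ π / 2 := by rw [ht]; exact Real.arcsin_le_pi_div_two y
  have hsin : Real.sin t = y := by rw [ht]; exact Real.sin_arcsin (by linarith) (by linarith)
  rw [← ht]
  have h1 : 2 / π * t ≤ Real.sin t := Real.mul_le_sin ht0 ht1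
  have h2 : t ≤ 2 * y := by
    rw [hsin, div_mul_eq_mul_div, div_le_iff₀ Real.pi_pos] at h1
    nlinarith [Real.pi_le_four]
  have h3 : Real.sin t ≤ t := Real.sin_le ht0
  have h4 : t - t ^ 3 / 4 ≤ Real.sin t := by
    rcases ht0.eq_or_lt with h | h
    · rw [← h]; simp
    · have h6 := Real.sin_gt_sub_cube h
      have h7 : 0 < t ^ 3 := by positivity
      linarith
  have h5 : t ^ 3 ≤ (2 * y) ^ 3 := by gcongr
  rw [abs_of_nonneg (by linarith)]
  nlinarith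

theorem arcsin_sub {y : ℝ} (hy : |y| ≤ 1 / 2) : |Real.arcsin y - y| ≤ 2 * |y| ^ 3 := by
  rcases le_total 0 y with h | h
  · rw [abs_of_nonneg h] at hy ⊢
    exact arcsin_sub_of_nonneg h hy
  · rw [abs_of_nonpos h] at hy ⊢
    have h1 := arcsin_sub_of_nonneg (y := -y) (by linarith) hy
    rw [Real.arcsin_neg] at h1
    have h2 : |Real.arcsin y - y| = |-Real.arcsin y - -y| := by
      rw [← abs_neg]; congr 1; ring
    rw [h2]
    exact h1

/-- **Flat Chebyshev metrics with merely continuous angle.** There is a continuous function `w` on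
the plane, with `|sin w| < 1`, such that the metric `du² + 2 sin w du dv + dv²` is flat: it is the
pullback of the Euclidean metric of the plane `ℂ` under a `C¹` map `f : ℝ² → ℂ`. But at some point
`p` the function `w` is not of the form `g(u) + h(v)` on any neighbourhood of `p`. -/
theorem result : ∃ (w : ℝ × ℝ → ℝ) (f : ℝ × ℝ → ℂ) (p : ℝ × ℝ),
    Continuous w ∧ (∀ x, |Real.sin (w x)| < 1) ∧ ContDiff ℝ 1 f ∧
    (∀ x, ‖fderiv ℝ f x (1, 0)‖ = 1 ∧ ‖fderiv ℝ f x (0, 1)‖ = 1 ∧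
      inner ℝ (fderiv ℝ f x (1, 0)) (fderiv ℝ f x (0, 1)) = Real.sin (w x)) ∧
    ∀ U ∈ 𝓝 p, ¬ ∃ g h : ℝ → ℝ, ∀ x ∈ U, w x = g x.1 + h x.2 := by
  obtain ⟨f, s, δ, c, N, hN, hs0, hs, hδ0, hδ1, hδs, hgood, hc, hc', hfu, r, hfv, him⟩ :=
    exists_first
  obtain ⟨g, hg1, hgu, hgv, hgf⟩ := exists_limit hδ0 hδ1 hgood
  obtain ⟨A, hA⟩ : ∃ A : ℝ × ℝ → ℝ, A = fun x =>
    inner ℝ (fderiv ℝ g x (1, 0)) (fderiv ℝ g x (0, 1)) := ⟨_, rfl⟩
  have hs2 : s ^ 2 = 1 / 1000000 := by rw [hs]; norm_num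
  have hu : ∀ x, ‖fderiv ℝ g x (1, 0) - fderiv ℝ f x (1, 0)‖ ≤ 36 * s ^ 2 := by
    intro x
    rw [← sub_apply]
    refine ((fderiv ℝ g x - fderiv ℝ f x).le_opNorm _).trans ?_
    have h1 : ‖((1 : ℝ), (0 : ℝ))‖ = 1 := by simp [Prod.norm_def]
    rw [h1, mul_one]
    linarith [hgf x]
  have hv : ∀ x, ‖fderiv ℝ g x (0, 1) - r * Complex.I‖ ≤ 37 * s ^ 2 := by
    intro x
    have h1 : ‖((0 : ℝ), (1 : ℝ))‖ = 1 := by simp [Prod.norm_def]
    have h2 : ‖fderiv ℝ g x (0, 1) - fderiv ℝ f x (0, 1)‖ ≤ 36 * s ^ 2 := by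
      rw [← sub_apply]
      refine ((fderiv ℝ g x - fderiv ℝ f x).le_opNorm _).trans ?_
      rw [h1, mul_one]
      linarith [hgf x]
    have h3 : fderiv ℝ g x (0, 1) - r * Complex.I = (fderiv ℝ g x (0, 1) - fderiv ℝ f x (0, 1)) +
      (fderiv ℝ f x (0, 1) - r * Complex.I) := by ring
    rw [h3]
    refine (norm_add_le _ _).trans ?_
    linarith [hfv x]
  have hAc : ∀ x, |A x - c * Real.sin (phase N x)| ≤ 73 * s ^ 2 := by
    intro x
    have h1 : inner ℝ (fderiv ℝ f x (1, 0)) ((r : ℂ) * Complex.I) =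
        c * Real.sin (phase N x) := by
      rw [← him x, Complex.inner]
      simp
    have h2 : A x - c * Real.sin (phase N x) =
        inner ℝ (fderiv ℝ g x (1, 0) - fderiv ℝ f x (1, 0)) (fderiv ℝ g x (0, 1)) +
        inner ℝ (fderiv ℝ f x (1, 0)) (fderiv ℝ g x (0, 1) - r * Complex.I) := by
      rw [← h1, hA, inner_sub_left, inner_sub_right]
      ring
    rw [h2]
    refine (abs_add_le _ _).trans ?_
    have h3 := (abs_real_inner_le_norm (fderiv ℝ g x (1, 0) - fderiv ℝ f x (1, 0))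
      (fderiv ℝ g x (0, 1)))
    have h4 := (abs_real_inner_le_norm (fderiv ℝ f x (1, 0))
      (fderiv ℝ g x (0, 1) - r * Complex.I))
    rw [hgv x, mul_one] at h3
    have h5 := mul_le_mul (hfu x) (hv x) (norm_nonneg _) zero_le_one
    linarith [hu x]
  have hAs : ∀ x, |A x| ≤ 3 * s := by
    intro x
    have h1 := abs_le.1 (hAc x)
    have h2 : |c * Real.sin (phase N x)| ≤ 2 * s := by
      rw [abs_mul, abs_of_nonneg (by linarith)]
      have := Real.abs_sin_le_one (phase N x)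
      calc c * |Real.sin (phase N x)| ≤ (2 * s) * 1 := by gcongr
        _ = 2 * s := mul_one _
    have h3 := abs_le.1 h2
    rw [abs_le]
    constructor <;> nlinarith [h1.1, h1.2, h3.1, h3.2]
  have hA1 : ∀ x, |A x| ≤ 1 / 2 := fun x => (hAs x).trans (by rw [hs]; norm_num)
  have hsin : ∀ x, Real.sin (Real.arcsin (A x)) = A x := by
    intro x
    have := abs_le.1 (hA1 x)
    exact Real.sin_arcsin (by linarith [this.1]) (by linarith [this.2])
  have hw : ∀ x, |Real.arcsin (A x) - c * Real.sin (phase N x)| ≤ 74 * s ^ 2 := by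
    intro x
    have h1 := arcsin_sub (hA1 x)
    have h2 : |A x| ^ 3 ≤ (3 * s) ^ 3 := by
      have := hAs x
      gcongr
    have h3 : 2 * (3 * s) ^ 3 ≤ s ^ 2 := by rw [hs]; norm_num
    have h4 := abs_le.1 (h1.trans (by linarith : 2 * |A x| ^ 3 ≤ s ^ 2))
    have h5 := abs_le.1 (hAc x)
    rw [abs_le]
    constructor <;> linarith [h4.1, h4.2, h5.1, h5.2]
  have hcd : Continuous (fderiv ℝ g) := hg1.continuous_fderiv (by simp)
  have hcA : Continuous A := by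
    rw [hA]
    exact (hcd.clm_apply continuous_const).inner (hcd.clm_apply continuous_const)
  by_contra hcon
  push Not at hcon
  have hloc : ∀ p, ∃ U ∈ 𝓝 p, ∃ g h : ℝ → ℝ, ∀ x ∈ U, Real.arcsin (A x) = g x.1 + h x.2 := by
    intro p
    refine hcon (fun x => Real.arcsin (A x)) g p (Real.continuous_arcsin.comp hcA) ?_ hg1 ?_
    · intro x
      rw [hsin x]
      linarith [hA1 x]
    · intro x
      refine ⟨hgu x, hgv x, ?_⟩
      rw [hsin x, hA]
  have hN' : (N : ℝ) ≠ 0 := by exact_mod_cast hN.ne'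
  have hmix := mixed hloc 0 (π / 2 / N) 0 (π / 2)
  have p1 : Real.sin (phase N (0, 0)) = 0 := by simp [phase]
  have p2 : Real.sin (phase N (π / 2 / N, 0)) = 1 := by
    have : phase N (π / 2 / N, 0) = π / 2 := by
      simp only [phase, Real.sin_zero, mul_zero, add_zero]
      exact mul_div_cancel₀ _ hN'
    rw [this, Real.sin_pi_div_two]
  have p3 : Real.sin (phase N (0, π / 2)) = 1 := by
    have : phase N (0, π / 2) = π / 2 := by
      simp [phase]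
    rw [this, Real.sin_pi_div_two]
  have p4 : Real.sin (phase N (π / 2 / N, π / 2)) = 0 := by
    have : phase N (π / 2 / N, π / 2) = π := by
      simp only [phase, Real.sin_pi_div_two, mul_one]
      rw [mul_div_cancel₀ _ hN']
      ring
    rw [this, Real.sin_pi]
  have q1 := abs_le.1 (hw (0, 0))
  have q2 := abs_le.1 (hw (π / 2 / N, 0))
  have q3 := abs_le.1 (hw (0, π / 2))
  have q4 := abs_le.1 (hw (π / 2 / N, π / 2))
  rw [p1] at q1
  rw [p2] at q2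
  rw [p3] at q3
  rw [p4] at q4
  rw [hs2] at q1 q2 q3 q4
  rw [hs] at hc
  linarith [q1.1, q1.2, q2.1, q2.2, q3.1, q3.2, q4.1, q4.2]

end Pool.Agent.Results.MP_65e1c6_gt.NotAdditive
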